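import Pool.Agent.PNT.Tauberian

/-!
# The prime number theorem
-/

namespace Pool.Agent.PNT

open MeasureTheory Filter Topology Set Complex Chebyshev

/-- the negative logarithmic derivative of `(z - 1) ζ(z)` -/
noncomputable def G (z : ℂ) : ℂ :=
  -deriv (DirichletCharacter.LFunctionTrivChar₁ 1) z / DirichletCharacter.LFunctionTrivChar₁ 1 z

theorem trivChar_one : DirichletCharacter.LFunctionTrivChar 1 = riemannZeta :=
  DirichletCharacter.LFunction_modOne_eq

theorem continuousOn_G : ContinuousOn G {z | 1 ≤ z.re} := by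
  refine (DirichletCharacter.continuousOn_neg_logDeriv_LFunctionTrivChar₁ 1).mono ?_
  intro z hz
  right
  rw [trivChar_one]
  exact riemannZeta_ne_zero_of_one_le_re hz

theorem G_eq {z : ℂ} (hz : 1 < z.re) :
    G z = -deriv riemannZeta z / riemannZeta z - 1 / (z - 1) := by
  have h1 : z ≠ 1 := by rintro rfl; simp at hz
  have h2 : z - 1 ≠ 0 := sub_ne_zero.2 h1
  have h3 : riemannZeta z ≠ 0 := riemannZeta_ne_zero_of_one_le_re hz.le
  unfold G
  rw [DirichletCharacter.deriv_LFunctionTrivChar₁_apply_of_ne_one _ h1,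
    DirichletCharacter.LFunctionTrivChar₁, Function.update_of_ne h1, trivChar_one]
  field_simp
  ring

/-- the normalised Chebyshev function on the logarithmic scale -/
noncomputable def B (u : ℝ) : ℝ := psi (Real.exp u) * Real.exp (-u)

theorem B_nonneg (u : ℝ) : 0 ≤ B u := mul_nonneg (psi_nonneg _) (Real.exp_pos _).le

theorem B_le (u : ℝ) : B u ≤ Real.log 4 + 4 := by
  unfold B
  have h := psi_le_const_mul_self (Real.exp_pos u).le
  calc psi (Real.exp u) * Real.exp (-u) ≤ (Real.log 4 + 4) * Real.exp u * Real.exp (-u) :=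
        mul_le_mul_of_nonneg_right h (Real.exp_pos _).le
    _ = Real.log 4 + 4 := by rw [mul_assoc, ← Real.exp_add]; simp

theorem measurable_B : Measurable B := by
  unfold B
  exact (psi_mono.measurable.comp Real.measurable_exp).mul (Real.measurable_exp.comp measurable_neg)

theorem B_mono (u u' : ℝ) (h : u ≤ u') : B u * Real.exp (-(u' - u)) ≤ B u' := by
  unfold B
  rw [mul_assoc, ← Real.exp_add]
  have : -u + -(u' - u) = -u' := by ring
  rw [this]
  exact mul_le_mul_of_nonneg_right (psi_mono (Real.exp_le_exp.2 h)) (Real.exp_pos _).le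

theorem sum_eq_psi (t : ℝ) :
    ∑ k ∈ Finset.Icc 1 ⌊t⌋₊, ((ArithmeticFunction.vonMangoldt k : ℝ) : ℂ) = ((psi t : ℝ) : ℂ) := by
  unfold psi
  push_cast
  rfl

theorem laplace_B {s : ℂ} (hs : 0 < s.re) :
    ∫ u in Ioi (0 : ℝ), (B u : ℂ) * exp (-s * u) =
      (-deriv riemannZeta (s + 1) / riemannZeta (s + 1)) / (s + 1) := by
  have hs1 : (1 : ℝ) < (s + 1).re := by simpa using hs
  have hs0 : s + 1 ≠ 0 := by
    intro h
    rw [h] at hs1
    norm_num at hs1
  have hO : (fun n : ℕ => ∑ k ∈ Finset.Icc 1 n, (ArithmeticFunction.vonMangoldt k : ℝ))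
      =O[atTop] fun n : ℕ => (n : ℝ) ^ (1 : ℝ) := by
    apply Asymptotics.IsBigO.of_bound (Real.log 4 + 4)
    filter_upwards with n
    have h1 : ∑ k ∈ Finset.Icc 1 n, (ArithmeticFunction.vonMangoldt k : ℝ) = psi n := by
      unfold psi
      rw [Nat.floor_natCast]
      rfl
    rw [h1, Real.rpow_one, Real.norm_eq_abs, Real.norm_eq_abs, abs_of_nonneg (psi_nonneg _),
      abs_of_nonneg (Nat.cast_nonneg n)]
    exact psi_le_const_mul_self (Nat.cast_nonneg n)
  have h1 := LSeries_eq_mul_integral_of_nonneg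
    (fun n => (ArithmeticFunction.vonMangoldt n : ℝ)) zero_le_one hs1 hO
    (fun n => ArithmeticFunction.vonMangoldt_nonneg)
  have h2 := ArithmeticFunction.LSeries_vonMangoldt_eq_deriv_riemannZeta_div hs1
  have h3 : ∫ t in Ioi (1 : ℝ), (∑ k ∈ Finset.Icc 1 ⌊t⌋₊,
      ((ArithmeticFunction.vonMangoldt k : ℝ) : ℂ)) * (t : ℂ) ^ (-(s + 1 + 1)) =
      (-deriv riemannZeta (s + 1) / riemannZeta (s + 1)) / (s + 1) := by
    rw [eq_div_iff hs0, mul_comm, ← h1]
    exact h2
  rw [← h3]
  have himg : Real.exp '' (Ioi (0 : ℝ)) = Ioi 1 := by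
    ext x
    constructor
    · rintro ⟨u, hu, rfl⟩
      exact Real.one_lt_exp_iff.2 hu
    · intro hx
      exact ⟨Real.log x, Real.log_pos hx, Real.exp_log (lt_trans one_pos hx)⟩
  rw [← himg, integral_image_eq_integral_abs_deriv_smul measurableSet_Ioi
    (fun x _ => (Real.hasDerivAt_exp x).hasDerivWithinAt) Real.exp_injective.injOn]
  apply setIntegral_congr_fun measurableSet_Ioi
  intro u _
  simp only [sum_eq_psi, abs_of_pos (Real.exp_pos u)]
  unfold B
  have e1 : ((Real.exp u : ℝ) : ℂ) ^ (-(s + 1 + 1)) = exp (-(s + 1 + 1) * u) := by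
    rw [Complex.cpow_def_of_ne_zero (by exact_mod_cast (Real.exp_pos u).ne'),
      ← Complex.ofReal_log (Real.exp_pos u).le, Real.log_exp, mul_comm]
  rw [e1, Complex.real_smul]
  push_cast
  have e2 : cexp (-u) * exp (-s * u) = cexp u * exp (-(s + 1 + 1) * u) := by
    rw [← Complex.exp_add, ← Complex.exp_add]
    congr 1
    ring
  calc ((psi (Real.exp u) : ℝ) : ℂ) * cexp (-u) * cexp (-s * u)
      = ((psi (Real.exp u) : ℝ) : ℂ) * (cexp (-u) * cexp (-s * u)) := by ring
    _ = _ := by rw [e2]; ring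

/-- the Laplace transform of `B - 1` -/
noncomputable def H (s : ℂ) : ℂ := (G (s + 1) - 1) / (s + 1)

theorem continuousOn_H : ContinuousOn H {s | 0 ≤ s.re} := by
  unfold H
  refine ContinuousOn.div ?_ (by fun_prop) ?_
  · refine ContinuousOn.sub ?_ continuousOn_const
    refine continuousOn_G.comp (by fun_prop) ?_
    intro s hs
    simpa using hs
  · intro s hs h
    have : (s + 1).re = 0 := by rw [h]; rfl
    simp only [add_re, one_re] at this
    have h2 : (0 : ℝ) ≤ s.re := hs
    linarith

theorem laplace_B_sub_one {s : ℂ} (hs : 0 < s.re) :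
    ∫ u in Ioi (0 : ℝ), ((B u - 1 : ℝ) : ℂ) * exp (-s * u) = H s := by
  have hs1 : (1 : ℝ) < (s + 1).re := by simpa using hs
  have hs0 : s ≠ 0 := by rintro rfl; simp at hs
  have hs0' : s + 1 ≠ 0 := by
    intro h
    rw [h] at hs1
    norm_num at hs1
  have hre : (-s).re < 0 := by simpa using hs
  have hi : IntegrableOn (fun u : ℝ => exp (-s * u)) (Ioi 0) :=
    integrableOn_exp_mul_complex_Ioi hre 0
  have hi' : IntegrableOn (fun u : ℝ => (B u : ℂ) * exp (-s * u)) (Ioi 0) := by
    refine Integrable.bdd_mul (c := Real.log 4 + 4) hi ?_ ?_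
    · exact (Complex.measurable_ofReal.comp measurable_B).aestronglyMeasurable
    · filter_upwards with u
      rw [Complex.norm_real, Real.norm_eq_abs, abs_of_nonneg (B_nonneg u)]
      exact B_le u
  have e : ∀ u : ℝ, ((B u - 1 : ℝ) : ℂ) * exp (-s * u) =
      (B u : ℂ) * exp (-s * u) - exp (-s * u) := by
    intro u; push_cast; ring
  simp_rw [e]
  rw [integral_sub hi' hi, laplace_B hs, integral_exp_mul_complex_Ioi hre 0]
  unfold H
  rw [G_eq hs1]
  simp only [add_sub_cancel_right, ofReal_zero, mul_zero, Complex.exp_zero]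
  field_simp
  ring

/-- **The prime number theorem** on the logarithmic scale -/
theorem tendsto_B : Tendsto B atTop (𝓝 1) := by
  refine tauberian measurable_B B_nonneg B_le B_mono fun l hl => ?_
  refine smooth_tendsto (b := fun u => B u - 1) (C := Real.log 4 + 4 + 1) (H := H)
    (measurable_B.sub_const 1) ?_ continuousOn_H (fun s hs => laplace_B_sub_one hs) hl
  intro u
  have h1 := B_nonneg u
  have h2 := B_le u
  rw [abs_le]
  constructor <;> linarith

/-- **The prime number theorem**: `ψ(x) / x → 1`. -/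
theorem tendsto_psi_div : Tendsto (fun x : ℝ => psi x / x) atTop (𝓝 1) := by
  have h := tendsto_B.comp Real.tendsto_log_atTop
  refine h.congr' ?_
  filter_upwards [eventually_gt_atTop 0] with x hx
  simp only [Function.comp, B]
  rw [Real.exp_log hx, Real.exp_neg, Real.exp_log hx, div_eq_mul_inv]

/-- **The prime number theorem**: `θ(x) / x → 1`. -/
theorem tendsto_theta_div : Tendsto (fun x : ℝ => theta x / x) atTop (𝓝 1) := by
  have h1 : (psi - theta) =o[atTop] (fun x : ℝ => x) := by
    refine isBigO_psi_sub_theta_sqrt.trans_isLittleO ?_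
    have h0 : Tendsto (fun x : ℝ => (Real.sqrt x)⁻¹) atTop (𝓝 0) :=
      tendsto_inv_atTop_zero.comp Real.tendsto_sqrt_atTop
    refine (Asymptotics.isLittleO_iff_tendsto' ?_).2 (h0.congr' ?_)
    · filter_upwards [eventually_gt_atTop 0] with x hx h
      exact absurd h hx.ne'
    · filter_upwards [eventually_gt_atTop 0] with x hx
      have h3 : Real.sqrt x ≠ 0 := (Real.sqrt_pos.2 hx).ne'
      have h4 : x = Real.sqrt x * Real.sqrt x := (Real.mul_self_sqrt hx.le).symm
      rw [inv_eq_one_div, div_eq_div_iff h3 hx.ne', one_mul]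
      exact h4
  have h2 := h1.tendsto_div_nhds_zero
  have h3 := tendsto_psi_div.sub h2
  rw [sub_zero] at h3
  refine h3.congr fun x => ?_
  simp only [Pi.sub_apply]
  ring

/-- **The prime number theorem** for `lcm(1, ..., n)`. -/
theorem tendsto_log_lcmUpto_div :
    Tendsto (fun n : ℕ => Real.log (Nat.lcmUpto n) / n) atTop (𝓝 1) := by
  have h := tendsto_psi_div.comp tendsto_natCast_atTop_atTop
  refine h.congr fun n => ?_
  simp only [Function.comp, psi_eq_log_lcmUpto]

/-- **The prime number theorem** for `π(x)`. -/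
theorem tendsto_primeCounting :
    Tendsto (fun x : ℝ => (Nat.primeCounting ⌊x⌋₊ : ℝ) * Real.log x / x) atTop (𝓝 1) := by
  have h1 := primeCounting_sub_theta_div_log_isBigO
  have h2 : Tendsto (fun x : ℝ => ((Nat.primeCounting ⌊x⌋₊ : ℝ) - theta x / Real.log x) *
      (Real.log x / x)) atTop (𝓝 0) := by
    have h3 := h1.mul (Asymptotics.isBigO_refl (fun x : ℝ => Real.log x / x) atTop)
    refine h3.trans_tendsto ?_
    have h4 : Tendsto (fun x : ℝ => (Real.log x)⁻¹) atTop (𝓝 0) :=
      tendsto_inv_atTop_zero.comp Real.tendsto_log_atTop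
    refine h4.congr' ?_
    filter_upwards [eventually_gt_atTop 1] with x hx
    have hl : Real.log x ≠ 0 := (Real.log_pos hx).ne'
    have hx0 : x ≠ 0 := by linarith
    field_simp
  have h3 := h2.add tendsto_theta_div
  rw [zero_add] at h3
  refine h3.congr' ?_
  filter_upwards [eventually_gt_atTop 1] with x hx
  have hl : Real.log x ≠ 0 := (Real.log_pos hx).ne'
  have hx0 : x ≠ 0 := by linarith
  field_simp
  ring

end Pool.Agent.PNT
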