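import Mathlib

/-!
# The Fejér kernel and its Fourier integral
-/

namespace Pool.Agent.PNT

open MeasureTheory Filter Topology Set

/-- the Fejér kernel -/
noncomputable def K (v : ℝ) : ℝ := (Real.sinc (v / 2)) ^ 2

theorem K_nonneg (v : ℝ) : 0 ≤ K v := sq_nonneg _

theorem K_neg (v : ℝ) : K (-v) = K v := by
  unfold K
  rw [neg_div, Real.sinc_neg]

theorem K_le_one (v : ℝ) : K v ≤ 1 := by
  have h := Real.abs_sinc_le_one (v / 2)
  unfold K
  rw [← sq_abs]
  have h0 := abs_nonneg (Real.sinc (v / 2))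
  nlinarith

theorem continuous_K : Continuous K := by
  unfold K
  exact (Real.continuous_sinc.comp (by fun_prop)).pow 2

theorem K_of_ne_zero {v : ℝ} (hv : v ≠ 0) : K v = 2 * (1 - Real.cos v) / v ^ 2 := by
  have h2 : v / 2 ≠ 0 := by positivity
  have h3 : Real.cos v = 1 - 2 * Real.sin (v / 2) ^ 2 := by
    have := Real.cos_two_mul' (v / 2)
    rw [show 2 * (v / 2) = v by ring] at this
    rw [this]
    have := Real.sin_sq_add_cos_sq (v / 2)
    nlinarith
  unfold K
  rw [Real.sinc_of_ne_zero h2, h3]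
  field_simp
  ring

theorem K_le (v : ℝ) : K v ≤ 8 * (1 + v ^ 2)⁻¹ := by
  by_cases h : v ^ 2 ≤ 1
  · have h1 : (1 + v ^ 2)⁻¹ ≥ 2⁻¹ := by
      apply inv_anti₀ (by positivity)
      linarith
    have := K_le_one v
    linarith
  · rw [not_le] at h
    have hv : v ≠ 0 := by rintro rfl; norm_num at h
    rw [K_of_ne_zero hv]
    have hc := Real.neg_one_le_cos v
    rw [div_le_iff₀ (by positivity), mul_assoc, mul_comm (1 + v ^ 2)⁻¹, ← mul_assoc,
      ← div_eq_mul_inv, le_div_iff₀ (by positivity)]
    have hc' := Real.cos_le_one v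
    nlinarith

theorem integrable_K : Integrable K := by
  refine (integrable_inv_one_add_sq.const_mul 8).mono' continuous_K.aestronglyMeasurable ?_
  filter_upwards with v
  rw [Real.norm_eq_abs, abs_of_nonneg (K_nonneg v)]
  exact K_le v

theorem K_zero : K 0 = 1 := by simp [K]

theorem integral_K_pos : 0 < ∫ v, K v := by
  rw [integral_pos_iff_support_of_nonneg K_nonneg integrable_K]
  have : (0 : ℝ) ∈ Function.support K := by simp [K_zero]
  have ho : IsOpen (Function.support K) := continuous_K.isOpen_support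
  exact ho.measure_pos volume ⟨0, this⟩

open Complex in
theorem fourier_aux {v : ℝ} (hv : v ≠ 0) :
    ∫ t in (-1 : ℝ)..1, ((1 - |t| : ℝ) : ℂ) * exp (t * v * I) = (K v : ℂ) := by
  have hc : (v * I : ℂ) ≠ 0 := mul_ne_zero (by exact_mod_cast hv) I_ne_zero
  obtain ⟨c, hcv⟩ : ∃ c : ℂ, c = v * I := ⟨_, rfl⟩
  rw [← hcv] at hc
  have hexp : ∀ t : ℝ, HasDerivAt (fun t : ℝ => exp (t * c)) (c * exp (t * c)) t := by
    intro t
    have h1 : HasDerivAt (fun t : ℝ => (t : ℂ) * c) (1 * c) t :=
      (HasDerivAt.ofReal_comp (hasDerivAt_id t)).mul_const c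
    have h2 := h1.cexp
    convert h2 using 1
    ring
  have h1 : ∫ t in (0 : ℝ)..1, ((1 - |t| : ℝ) : ℂ) * exp (t * v * I) =
      exp c / c ^ 2 - (1 / c + 1 / c ^ 2) := by
    have e : ∫ t in (0 : ℝ)..1, ((1 - |t| : ℝ) : ℂ) * exp (t * v * I) =
        ∫ t in (0 : ℝ)..1, (1 - (t : ℂ)) * exp (t * c) := by
      apply intervalIntegral.integral_congr
      intro t ht
      rw [uIcc_of_le zero_le_one] at ht
      simp only [abs_of_nonneg ht.1]
      rw [hcv]
      push_cast
      ring_nf
    rw [e, intervalIntegral.integral_eq_sub_of_hasDerivAt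
      (f := fun t : ℝ => ((1 - (t : ℂ)) / c + 1 / c ^ 2) * exp (t * c))]
    · simp
      ring
    · intro t _
      have h3 : HasDerivAt (fun t : ℝ => (1 - (t : ℂ)) / c + 1 / c ^ 2) (-1 / c) t := by
        have := ((HasDerivAt.ofReal_comp (hasDerivAt_id t)).const_sub 1).div_const c
        simpa using this.add_const (1 / c ^ 2)
      exact (h3.mul (hexp t)).congr_deriv (by field_simp; ring)
    · apply Continuous.intervalIntegrable
      fun_prop
  have h2 : ∫ t in (-1 : ℝ)..0, ((1 - |t| : ℝ) : ℂ) * exp (t * v * I) =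
      (1 / c - 1 / c ^ 2) + exp (-c) / c ^ 2 := by
    have e : ∫ t in (-1 : ℝ)..0, ((1 - |t| : ℝ) : ℂ) * exp (t * v * I) =
        ∫ t in (-1 : ℝ)..0, (1 + (t : ℂ)) * exp (t * c) := by
      apply intervalIntegral.integral_congr
      intro t ht
      rw [uIcc_of_le (by norm_num)] at ht
      simp only [abs_of_nonpos ht.2]
      rw [hcv]
      push_cast
      ring_nf
    rw [e, intervalIntegral.integral_eq_sub_of_hasDerivAt
      (f := fun t : ℝ => ((1 + (t : ℂ)) / c - 1 / c ^ 2) * exp (t * c))]
    · simp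
      ring
    · intro t _
      have h3 : HasDerivAt (fun t : ℝ => (1 + (t : ℂ)) / c - 1 / c ^ 2) (1 / c) t := by
        have := ((HasDerivAt.ofReal_comp (hasDerivAt_id t)).const_add 1).div_const c
        simpa using this.sub_const (1 / c ^ 2)
      exact (h3.mul (hexp t)).congr_deriv (by field_simp; ring)
    · apply Continuous.intervalIntegrable
      fun_prop
  have hint : ∀ a b : ℝ, IntervalIntegrable
      (fun t : ℝ => ((1 - |t| : ℝ) : ℂ) * exp (t * v * I)) volume a b := by
    intro a b
    apply Continuous.intervalIntegrable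
    fun_prop
  rw [← intervalIntegral.integral_add_adjacent_intervals (hint (-1) 0) (hint 0 1), h1, h2,
    K_of_ne_zero hv]
  have h5 : exp c + exp (-c) = 2 * cos v := by
    rw [hcv, Complex.cos]
    ring_nf
  have h6 : c ^ 2 = -(v : ℂ) ^ 2 := by rw [hcv, mul_pow, I_sq]; ring
  have h7 : (v : ℂ) ≠ 0 := by exact_mod_cast hv
  push_cast
  have h8 : 1 / c - 1 / c ^ 2 + exp (-c) / c ^ 2 + (exp c / c ^ 2 - (1 / c + 1 / c ^ 2)) =
      ((exp c + exp (-c)) - 2) / c ^ 2 := by
    field_simp
    ring
  rw [h8, h5, h6]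
  field_simp
  ring

open Complex in
/-- the Fourier integral of the triangle function is the Fejér kernel -/
theorem fourier_triangle (v : ℝ) :
    ∫ t in (-1 : ℝ)..1, ((1 - |t| : ℝ) : ℂ) * exp (t * v * I) = (K v : ℂ) := by
  by_cases hv : v = 0
  · subst hv
    rw [K_zero]
    have e : ∫ t in (-1 : ℝ)..1, ((1 - |t| : ℝ) : ℂ) * exp (t * (0 : ℝ) * I) =
        ((∫ t in (-1 : ℝ)..1, (1 - |t|) : ℝ) : ℂ) := by
      rw [← intervalIntegral.integral_ofReal]
      apply intervalIntegral.integral_congr
      intro t _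
      simp
    rw [e]
    have hint : ∀ a b : ℝ, IntervalIntegrable (fun t : ℝ => (1 - |t|)) volume a b := by
      intro a b
      apply Continuous.intervalIntegrable
      fun_prop
    have h1 : ∫ t in (0 : ℝ)..1, (1 - |t|) = 1 / 2 := by
      have : ∫ t in (0 : ℝ)..1, (1 - |t|) = ∫ t in (0 : ℝ)..1, (1 - t) := by
        apply intervalIntegral.integral_congr
        intro t ht
        rw [uIcc_of_le zero_le_one] at ht
        simp only [abs_of_nonneg ht.1]
      rw [this, intervalIntegral.integral_sub (by simp) (by simp)]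
      simp
      norm_num
    have h2 : ∫ t in (-1 : ℝ)..0, (1 - |t|) = 1 / 2 := by
      have : ∫ t in (-1 : ℝ)..0, (1 - |t|) = ∫ t in (-1 : ℝ)..0, (1 + t) := by
        apply intervalIntegral.integral_congr
        intro t ht
        rw [uIcc_of_le (by norm_num)] at ht
        simp only [abs_of_nonpos ht.2]
        ring
      rw [this, intervalIntegral.integral_add (by simp) (by simp)]
      simp
      norm_num
    rw [← intervalIntegral.integral_add_adjacent_intervals (hint (-1) 0) (hint 0 1), h1, h2]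
    norm_num
  · exact fourier_aux hv

end Pool.Agent.PNT
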