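import Pool.Agent.PNT.Kernel

/-!
# Smoothed averages of a bounded function whose Laplace transform is continuous up to the boundary
-/

namespace Pool.Agent.PNT

open MeasureTheory Filter Topology Set Complex

/-- the scaled Fejér kernel -/
noncomputable def Kl (l v : ℝ) : ℝ := l * K (l * v)

theorem Kl_nonneg {l : ℝ} (hl : 0 < l) (v : ℝ) : 0 ≤ Kl l v := mul_nonneg hl.le (K_nonneg _)

theorem continuous_Kl (l : ℝ) : Continuous (Kl l) := by
  unfold Kl
  exact continuous_const.mul (continuous_K.comp (by fun_prop))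

theorem integrable_Kl {l : ℝ} (hl : 0 < l) : Integrable (Kl l) :=
  (integrable_K.comp_mul_left' hl.ne').const_mul l

theorem integral_Kl {l : ℝ} (hl : 0 < l) : ∫ v, Kl l v = ∫ v, K v := by
  unfold Kl
  rw [integral_const_mul, Measure.integral_comp_mul_left, abs_of_pos (inv_pos.2 hl), smul_eq_mul,
    ← mul_assoc, mul_inv_cancel₀ hl.ne', one_mul]

theorem fourier_Kl {l : ℝ} (hl : 0 < l) (v : ℝ) :
    ∫ t in (-l)..l, ((1 - |t / l| : ℝ) : ℂ) * exp (t * v * I) = (Kl l v : ℂ) := by
  have h := intervalIntegral.integral_comp_div (a := -l) (b := l)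
    (fun t : ℝ => ((1 - |t| : ℝ) : ℂ) * exp (t * ((l * v : ℝ) : ℂ) * I)) hl.ne'
  rw [neg_div, div_self hl.ne', fourier_triangle] at h
  have e : ∫ t in (-l)..l, ((1 - |t / l| : ℝ) : ℂ) * exp (t * v * I) =
      ∫ t in (-l)..l, ((1 - |t / l| : ℝ) : ℂ) * exp (((t / l : ℝ) : ℂ) * ((l * v : ℝ) : ℂ) * I) := by
    apply intervalIntegral.integral_congr
    intro t _
    have : (t : ℂ) * v = ((t / l : ℝ) : ℂ) * ((l * v : ℝ) : ℂ) := by
      push_cast
      have : (l : ℂ) ≠ 0 := by exact_mod_cast hl.ne'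
      field_simp
    simp only [this]
  rw [e, h]
  simp [Kl]

section
variable {b : ℝ → ℝ} {C : ℝ} {H : ℂ → ℂ} (hm : Measurable b) (hb : ∀ u, |b u| ≤ C)
  (hH : ContinuousOn H {s | 0 ≤ s.re})
  (hL : ∀ s : ℂ, 0 < s.re → ∫ u in Ioi (0 : ℝ), (b u : ℂ) * exp (-s * u) = H s)
  {l : ℝ} (hl : 0 < l)

include hm hb hL hl in
theorem smooth_eps (y : ℝ) {ε : ℝ} (hε : 0 < ε) :
    ∫ u in Ioi (0 : ℝ), (b u : ℂ) * exp (-ε * u) * (Kl l (y - u) : ℂ) =
      ∫ t in (-l)..l, ((1 - |t / l| : ℝ) : ℂ) * exp (t * y * I) * H (ε + t * I) := by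
  have e1 : ∀ u : ℝ, (b u : ℂ) * exp (-ε * u) * (Kl l (y - u) : ℂ) =
      ∫ t in (-l)..l, ((1 - |t / l| : ℝ) : ℂ) * exp (t * y * I) *
        ((b u : ℂ) * exp (-(ε + t * I) * u)) := by
    intro u
    rw [← fourier_Kl hl, ← intervalIntegral.integral_const_mul]
    apply intervalIntegral.integral_congr
    intro t _
    have : exp (-ε * u) * exp (t * ((y - u : ℝ) : ℂ) * I) =
        exp (t * y * I) * exp (-(ε + t * I) * u) := by
      rw [← exp_add, ← exp_add]
      congr 1
      push_cast
      ring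
    calc (b u : ℂ) * exp (-ε * u) * (((1 - |t / l| : ℝ) : ℂ) * exp (t * ((y - u : ℝ) : ℂ) * I))
        = (b u : ℂ) * ((1 - |t / l| : ℝ) : ℂ) *
          (exp (-ε * u) * exp (t * ((y - u : ℝ) : ℂ) * I)) := by ring
      _ = _ := by rw [this]; ring
  simp_rw [e1]
  rw [← intervalIntegral_integral_swap]
  · apply intervalIntegral.integral_congr
    intro t _
    simp only
    rw [integral_const_mul, hL]
    simp [hε]
  · have h1 : Integrable (fun t : ℝ => 1 + |t / l|) (volume.restrict (uIoc (-l) l)) := by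
      have : IntervalIntegrable (fun t : ℝ => 1 + |t / l|) volume (-l) l := by
        apply Continuous.intervalIntegrable
        fun_prop
      exact intervalIntegrable_iff.1 this
    have h2 : Integrable (fun u : ℝ => C * Real.exp (-ε * u)) (volume.restrict (Ioi 0)) :=
      (exp_neg_integrableOn_Ioi 0 hε).const_mul C
    refine (h1.mul_prod h2).mono' ?_ ?_
    · apply Measurable.aestronglyMeasurable
      unfold Function.uncurry
      fun_prop
    · filter_upwards with p
      obtain ⟨t, u⟩ := p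
      simp only [Function.uncurry, norm_mul, Complex.norm_real, Real.norm_eq_abs]
      have e2 : ‖exp (t * y * I)‖ = 1 := by
        have := Complex.norm_exp_ofReal_mul_I (t * y)
        push_cast at this
        exact this
      have e3 : ‖exp (-(ε + t * I) * u)‖ = Real.exp (-ε * u) := by
        rw [Complex.norm_exp]
        simp
      rw [e2, e3, mul_one]
      have h3 : abs (1 - |t / l|) ≤ 1 + |t / l| := by
        refine (abs_sub _ _).trans ?_
        simp
      have h4 := hb u
      gcongr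

end

/-- **The smoothed averages as an integral over the boundary line** -/
theorem smooth_zero {b : ℝ → ℝ} {C : ℝ} {H : ℂ → ℂ} (hm : Measurable b) (hb : ∀ u, |b u| ≤ C)
    (hH : ContinuousOn H {s | 0 ≤ s.re})
    (hL : ∀ s : ℂ, 0 < s.re → ∫ u in Ioi (0 : ℝ), (b u : ℂ) * exp (-s * u) = H s)
    {l : ℝ} (hl : 0 < l) (y : ℝ) :
    ∫ u in Ioi (0 : ℝ), (b u : ℂ) * (Kl l (y - u) : ℂ) =
      ∫ t in (-l)..l, ((1 - |t / l| : ℝ) : ℂ) * exp (t * y * I) * H (t * I) := by
  have hC : 0 ≤ C := (abs_nonneg _).trans (hb 0)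
  have hint : Integrable (fun u => C * Kl l (y - u)) (volume.restrict (Ioi (0 : ℝ))) :=
    (((integrable_Kl hl).comp_sub_left y).const_mul C).restrict
  -- the left hand side
  have hleft : Tendsto (fun ε : ℝ => ∫ u in Ioi (0 : ℝ), (b u : ℂ) * exp (-ε * u) *
      (Kl l (y - u) : ℂ)) (𝓝[>] 0) (𝓝 (∫ u in Ioi (0 : ℝ), (b u : ℂ) * (Kl l (y - u) : ℂ))) := by
    apply tendsto_integral_filter_of_dominated_convergence (fun u => C * Kl l (y - u))
    · filter_upwards with ε
      apply Measurable.aestronglyMeasurable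
      have := (continuous_Kl l).measurable
      fun_prop
    · filter_upwards [self_mem_nhdsWithin] with ε hε
      filter_upwards [ae_restrict_mem measurableSet_Ioi] with u hu
      rw [norm_mul, norm_mul, Complex.norm_real, Complex.norm_real, Real.norm_eq_abs,
        Real.norm_eq_abs, abs_of_nonneg (Kl_nonneg hl _)]
      have e3 : ‖exp (-ε * u)‖ ≤ 1 := by
        rw [Complex.norm_exp]
        apply Real.exp_le_one_iff.2
        have : (0 : ℝ) < ε * u := mul_pos hε hu
        simp
        linarith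
      have h4 := hb u
      have h5 := Kl_nonneg hl (y - u)
      gcongr
      calc |b u| * ‖exp (-ε * u)‖ ≤ C * 1 := by gcongr
        _ = C := mul_one C
    · exact hint
    · filter_upwards with u
      have : Tendsto (fun ε : ℝ => (b u : ℂ) * exp (-ε * u) * (Kl l (y - u) : ℂ)) (𝓝 0)
          (𝓝 ((b u : ℂ) * exp (-(0 : ℝ) * u) * (Kl l (y - u) : ℂ))) := by
        apply Continuous.tendsto
        fun_prop
      simp only [ofReal_zero, neg_zero, zero_mul, exp_zero, mul_one] at this
      exact this.mono_left nhdsWithin_le_nhds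
  -- the right hand side
  have hcompact : IsCompact ((fun p : ℝ × ℝ => (p.1 : ℂ) + p.2 * I) '' (Icc 0 1 ×ˢ Icc (-l) l)) :=
    (isCompact_Icc.prod isCompact_Icc).image (by fun_prop)
  have hsub : ((fun p : ℝ × ℝ => (p.1 : ℂ) + p.2 * I) '' (Icc 0 1 ×ˢ Icc (-l) l)) ⊆
      {s : ℂ | 0 ≤ s.re} := by
    rintro s ⟨p, hp, rfl⟩
    simpa using hp.1.1
  obtain ⟨M, hM⟩ := hcompact.exists_bound_of_continuousOn (hH.mono hsub)
  have hright : Tendsto (fun ε : ℝ => ∫ t in (-l)..l, ((1 - |t / l| : ℝ) : ℂ) *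
      exp (t * y * I) * H (ε + t * I)) (𝓝[>] 0)
      (𝓝 (∫ t in (-l)..l, ((1 - |t / l| : ℝ) : ℂ) * exp (t * y * I) * H (t * I))) := by
    apply intervalIntegral.tendsto_integral_filter_of_dominated_convergence
      (fun t => (1 + |t / l|) * 1 * M)
    · filter_upwards [self_mem_nhdsWithin] with ε hε
      apply Continuous.aestronglyMeasurable
      have : Continuous (fun t : ℝ => H (ε + t * I)) := by
        apply hH.comp_continuous (by fun_prop)
        intro t
        simpa using (le_of_lt hε : (0 : ℝ) ≤ ε)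
      exact Continuous.mul (by fun_prop) this
    · filter_upwards [self_mem_nhdsWithin, nhdsWithin_le_nhds (Iic_mem_nhds one_pos)] with ε hε hε'
      filter_upwards with t ht
      rw [uIoc_of_le (by linarith)] at ht
      rw [norm_mul, norm_mul, Complex.norm_real, Real.norm_eq_abs]
      have e2 : ‖exp (t * y * I)‖ = 1 := by
        have := Complex.norm_exp_ofReal_mul_I (t * y)
        push_cast at this
        exact this
      have h3 : abs (1 - |t / l|) ≤ 1 + |t / l| := by
        refine (abs_sub _ _).trans ?_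
        simp
      have h4 := hM (ε + t * I) ⟨(ε, t), ⟨⟨le_of_lt hε, hε'⟩, ⟨ht.1.le, ht.2⟩⟩, rfl⟩
      rw [e2]
      gcongr
    · apply Continuous.intervalIntegrable
      fun_prop
    · filter_upwards with t _
      have h1 : Tendsto (fun ε : ℝ => H (ε + t * I)) (𝓝[>] 0) (𝓝 (H (t * I))) := by
        have h2 : ContinuousWithinAt H {s | 0 ≤ s.re} (t * I) := hH _ (by simp)
        refine h2.tendsto.comp ?_
        apply tendsto_nhdsWithin_of_tendsto_nhds_of_eventually_within
        · have : Tendsto (fun ε : ℝ => (ε : ℂ) + t * I) (𝓝 0) (𝓝 (((0 : ℝ) : ℂ) + t * I)) := by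
            apply Continuous.tendsto
            fun_prop
          simp only [ofReal_zero, zero_add] at this
          exact this.mono_left nhdsWithin_le_nhds
        · filter_upwards [self_mem_nhdsWithin] with ε hε
          simpa using (le_of_lt hε : (0 : ℝ) ≤ ε)
      exact tendsto_const_nhds.mul h1
  refine tendsto_nhds_unique hleft (hright.congr' ?_)
  filter_upwards [self_mem_nhdsWithin] with ε hε
  exact (smooth_eps hm hb hL hl y hε).symm

/-- **Wiener–Ikehara, smoothed form** -/
theorem smooth_tendsto {b : ℝ → ℝ} {C : ℝ} {H : ℂ → ℂ} (hm : Measurable b)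
    (hb : ∀ u, |b u| ≤ C) (hH : ContinuousOn H {s | 0 ≤ s.re})
    (hL : ∀ s : ℂ, 0 < s.re → ∫ u in Ioi (0 : ℝ), (b u : ℂ) * exp (-s * u) = H s)
    {l : ℝ} (hl : 0 < l) :
    Tendsto (fun y : ℝ => ∫ u in Ioi (0 : ℝ), b u * Kl l (y - u)) atTop (𝓝 0) := by
  have h1 := Real.tendsto_integral_exp_smul_cocompact
    ((Ioc (-l) l).indicator fun t : ℝ => ((1 - |t / l| : ℝ) : ℂ) * H (t * I))
  have h2 : Tendsto (fun y : ℝ => -(y / (2 * Real.pi))) atTop (cocompact ℝ) := by
    have h3 : Tendsto (fun y : ℝ => -(y / (2 * Real.pi))) atTop atBot := by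
      apply tendsto_neg_atTop_atBot.comp
      exact tendsto_id.atTop_div_const (by positivity)
    exact h3.mono_right atBot_le_cocompact
  have h4 := h1.comp h2
  have h5 : Tendsto (fun y : ℝ => ∫ u in Ioi (0 : ℝ), (b u : ℂ) * (Kl l (y - u) : ℂ)) atTop
      (𝓝 0) := by
    refine h4.congr fun y => ?_
    rw [smooth_zero hm hb hH hL hl y, intervalIntegral.integral_of_le (by linarith),
      ← integral_indicator measurableSet_Ioc]
    simp only [Function.comp]
    congr 1
    funext t
    by_cases ht : t ∈ Ioc (-l) l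
    · rw [indicator_of_mem ht, indicator_of_mem ht]
      have : (Real.fourierChar (-(t * -(y / (2 * Real.pi)))) : ℂ) = exp (t * y * I) := by
        rw [Real.fourierChar_apply]
        congr 1
        push_cast
        have : (Real.pi : ℂ) ≠ 0 := by exact_mod_cast Real.pi_ne_zero
        field_simp
      rw [Circle.smul_def, this, smul_eq_mul]
      ring
    · rw [indicator_of_notMem ht, indicator_of_notMem ht, smul_zero]
  have h6 : Tendsto (fun y : ℝ => (∫ u in Ioi (0 : ℝ), (b u : ℂ) * (Kl l (y - u) : ℂ)).re)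
      atTop (𝓝 (0 : ℂ).re) := (continuous_re.tendsto 0).comp h5
  rw [zero_re] at h6
  refine h6.congr fun y => ?_
  have : ∫ u in Ioi (0 : ℝ), (b u : ℂ) * (Kl l (y - u) : ℂ) =
      ((∫ u in Ioi (0 : ℝ), b u * Kl l (y - u) : ℝ) : ℂ) := by
    rw [← integral_complex_ofReal]
    congr 1
    funext u
    push_cast
    rfl
  rw [this, ofReal_re]

end Pool.Agent.PNT
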