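import Pool.Agent.PNT.Smooth

/-!
# The Tauberian step
-/

namespace Pool.Agent.PNT

open MeasureTheory Filter Topology Set

/-- total mass of the kernel -/
noncomputable def I0 : ℝ := ∫ v, K v

theorem I0_pos : 0 < I0 := integral_K_pos

/-- mass of the scaled kernel near the origin -/
noncomputable def J (l h : ℝ) : ℝ := ∫ v in (-h)..h, Kl l v

theorem J_eq (l h : ℝ) : J l h = ∫ v in (-(l * h))..(l * h), K v := by
  unfold J Kl
  rw [intervalIntegral.integral_const_mul, intervalIntegral.mul_integral_comp_mul_left]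
  ring_nf

theorem tendsto_J {h : ℝ} (hh : 0 < h) : Tendsto (fun l => J l h) atTop (𝓝 I0) := by
  have h1 : Tendsto (fun l : ℝ => l * h) atTop atTop := tendsto_id.atTop_mul_const hh
  have h2 : Tendsto (fun l : ℝ => -(l * h)) atTop atBot := tendsto_neg_atTop_atBot.comp h1
  have h3 := intervalIntegral_tendsto_integral integrable_K h2 h1
  refine h3.congr' ?_
  filter_upwards with l
  rw [J_eq]

theorem J_le {l h : ℝ} (hl : 0 < l) (hh : 0 < h) : J l h ≤ I0 := by
  unfold J I0
  rw [intervalIntegral.integral_of_le (by linarith), ← integral_Kl hl]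
  exact setIntegral_le_integral (integrable_Kl hl) (ae_of_all _ (Kl_nonneg hl))

theorem tendsto_mass {l : ℝ} (hl : 0 < l) :
    Tendsto (fun y : ℝ => ∫ u in Ioi (0 : ℝ), Kl l (y - u)) atTop (𝓝 I0) := by
  have h1 : ∀ y : ℝ, ∫ u in Ioi (0 : ℝ), Kl l (y - u) = ∫ v in Iio y, Kl l v := by
    intro y
    rw [← integral_indicator measurableSet_Ioi, ← integral_indicator measurableSet_Iio]
    refine Eq.trans ?_ (integral_sub_left_eq_self ((Iio y).indicator (Kl l)) volume y)
    congr 1
    funext u
    by_cases hu : 0 < u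
    · have h1 : y - u ∈ Iio y := by simp only [mem_Iio]; linarith
      rw [indicator_of_mem (show u ∈ Ioi 0 from hu), indicator_of_mem h1]
    · have h1 : y - u ∉ Iio y := by simp only [mem_Iio]; linarith
      rw [indicator_of_notMem (show u ∉ Ioi 0 from hu), indicator_of_notMem h1]
  simp_rw [h1]
  have h2 := (aecover_Iio (μ := volume) (tendsto_id (α := ℝ) (x := atTop))).integral_tendsto_of_countably_generated
    (integrable_Kl hl)
  rw [integral_Kl hl] at h2
  exact h2

/-- **Tauberian theorem** -/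
theorem tauberian {B : ℝ → ℝ} {C : ℝ} (hm : Measurable B) (h0 : ∀ u, 0 ≤ B u)
    (hC : ∀ u, B u ≤ C) (hmono : ∀ u u', u ≤ u' → B u * Real.exp (-(u' - u)) ≤ B u')
    (hs : ∀ l : ℝ, 0 < l →
      Tendsto (fun y : ℝ => ∫ u in Ioi (0 : ℝ), (B u - 1) * Kl l (y - u)) atTop (𝓝 0)) :
    Tendsto B atTop (𝓝 1) := by
  have hC0 : 0 ≤ C := (h0 0).trans (hC 0)
  have hint : ∀ l : ℝ, 0 < l → ∀ y : ℝ, Integrable (fun u => B u * Kl l (y - u)) := by
    intro l hl y
    have h1 : Integrable (fun u => Kl l (y - u)) := (integrable_Kl hl).comp_sub_left y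
    refine h1.bdd_mul (c := C) hm.aestronglyMeasurable ?_
    filter_upwards with u
    rw [Real.norm_eq_abs, abs_of_nonneg (h0 u)]
    exact hC u
  have hint' : ∀ l : ℝ, 0 < l → ∀ y : ℝ, Integrable (fun u => Kl l (y - u)) := fun l hl y =>
    (integrable_Kl hl).comp_sub_left y
  have hP : ∀ l : ℝ, 0 < l →
      Tendsto (fun y : ℝ => ∫ u in Ioi (0 : ℝ), B u * Kl l (y - u)) atTop (𝓝 I0) := by
    intro l hl
    have h1 := (hs l hl).add (tendsto_mass hl)
    rw [zero_add] at h1
    refine h1.congr fun y => ?_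
    rw [← integral_add]
    · congr 1
      funext u
      ring
    · have : (fun u => (B u - 1) * Kl l (y - u)) =
          fun u => B u * Kl l (y - u) - Kl l (y - u) := by
        funext u; ring
      rw [this]
      exact ((hint l hl y).sub (hint' l hl y)).restrict
    · exact (hint' l hl y).restrict
  -- upper estimate
  have hup : ∀ l : ℝ, 0 < l → ∀ h : ℝ, 0 < h → ∀ y : ℝ, 0 < y →
      B y * Real.exp (-(2 * h)) * J l h ≤ ∫ u in Ioi (0 : ℝ), B u * Kl l (y + h - u) := by
    intro l hl h hh y hy
    have e1 : B y * Real.exp (-(2 * h)) * J l h =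
        ∫ u in Ioc y (y + 2 * h), B y * Real.exp (-(2 * h)) * Kl l (y + h - u) := by
      rw [integral_const_mul, ← intervalIntegral.integral_of_le (by linarith),
        intervalIntegral.integral_comp_sub_left (fun v => Kl l v) (y + h)]
      unfold J
      ring_nf
    rw [e1]
    have h2 : ∫ u in Ioc y (y + 2 * h), B u * Kl l (y + h - u) ≤
        ∫ u in Ioi (0 : ℝ), B u * Kl l (y + h - u) := by
      apply setIntegral_mono_set (hint l hl _).integrableOn
      · filter_upwards with u
        exact mul_nonneg (h0 u) (Kl_nonneg hl _)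
      · refine ae_of_all _ ?_
        intro u hu
        exact lt_trans hy hu.1
    refine le_trans ?_ h2
    apply setIntegral_mono_on
    · exact ((hint' l hl _).const_mul _).integrableOn
    · exact (hint l hl _).integrableOn
    · exact measurableSet_Ioc
    · intro u hu
      apply mul_le_mul_of_nonneg_right _ (Kl_nonneg hl _)
      refine le_trans ?_ (hmono y u hu.1.le)
      apply mul_le_mul_of_nonneg_left _ (h0 y)
      apply Real.exp_le_exp.2
      have := hu.2
      linarith
  -- lower estimate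
  have hlow : ∀ l : ℝ, 0 < l → ∀ h : ℝ, 0 < h → ∀ y : ℝ,
      ∫ u in Ioi (0 : ℝ), B u * Kl l (y - h - u) ≤
        B y * Real.exp (2 * h) * J l h + C * (I0 - J l h) := by
    intro l hl h hh y
    have hI : Integrable (fun u => Kl l (y - h - u)) := hint' l hl _
    have e1 : ∫ u in Ioc (y - 2 * h) y, Kl l (y - h - u) = J l h := by
      rw [← intervalIntegral.integral_of_le (by linarith),
        intervalIntegral.integral_comp_sub_left (fun v => Kl l v) (y - h)]
      unfold J
      ring_nf
    have e2 : ∫ u in (Ioc (y - 2 * h) y)ᶜ, Kl l (y - h - u) = I0 - J l h := by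
      have h1 := integral_add_compl (μ := volume) (measurableSet_Ioc (a := y - 2 * h) (b := y)) hI
      have h2 : ∫ u, Kl l (y - h - u) = I0 := by
        rw [integral_sub_left_eq_self (fun v => Kl l v) volume (y - h), integral_Kl hl]
        rfl
      linarith
    have h1 : ∫ u in Ioi (0 : ℝ), B u * Kl l (y - h - u) ≤ ∫ u, B u * Kl l (y - h - u) :=
      setIntegral_le_integral (hint l hl _)
        (ae_of_all _ fun u => mul_nonneg (h0 u) (Kl_nonneg hl _))
    refine h1.trans ?_
    rw [← integral_add_compl (measurableSet_Ioc (a := y - 2 * h) (b := y)) (hint l hl _), ← e2,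
      ← e1, ← integral_const_mul, ← integral_const_mul]
    refine add_le_add ?_ ?_
    · apply setIntegral_mono_on (hint l hl _).integrableOn (hI.const_mul _).integrableOn
        measurableSet_Ioc
      intro u hu
      apply mul_le_mul_of_nonneg_right _ (Kl_nonneg hl _)
      have h3 := hmono u y hu.2
      have h4 : B u ≤ B y * Real.exp (y - u) := by
        have h5 : B u = B u * Real.exp (-(y - u)) * Real.exp (y - u) := by
          rw [mul_assoc, ← Real.exp_add]
          simp
        rw [h5]
        exact mul_le_mul_of_nonneg_right h3 (Real.exp_pos _).le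
      refine h4.trans ?_
      apply mul_le_mul_of_nonneg_left _ (h0 y)
      apply Real.exp_le_exp.2
      have := hu.1
      linarith
    · apply setIntegral_mono_on (hint l hl _).integrableOn (hI.const_mul _).integrableOn
        measurableSet_Ioc.compl
      intro u _
      exact mul_le_mul_of_nonneg_right (hC u) (Kl_nonneg hl _)
  -- conclusion
  rw [Metric.tendsto_atTop]
  intro ε hε
  have hI := I0_pos
  obtain ⟨h, hh, hh1, hh2⟩ : ∃ h : ℝ, 0 < h ∧ Real.exp (2 * h) < 1 + ε ∧
      1 - ε < Real.exp (-(2 * h)) := by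
    have c1 : Tendsto (fun h : ℝ => Real.exp (2 * h)) (𝓝[>] 0) (𝓝 1) := by
      have : Tendsto (fun h : ℝ => Real.exp (2 * h)) (𝓝 0) (𝓝 (Real.exp (2 * 0))) := by
        apply Continuous.tendsto; fun_prop
      simp only [mul_zero, Real.exp_zero] at this
      exact this.mono_left nhdsWithin_le_nhds
    have c2 : Tendsto (fun h : ℝ => Real.exp (-(2 * h))) (𝓝[>] 0) (𝓝 1) := by
      have : Tendsto (fun h : ℝ => Real.exp (-(2 * h))) (𝓝 0) (𝓝 (Real.exp (-(2 * 0)))) := by
        apply Continuous.tendsto; fun_prop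
      simp only [mul_zero, Real.exp_zero, neg_zero] at this
      exact this.mono_left nhdsWithin_le_nhds
    have c3 := c1.eventually (gt_mem_nhds (show (1 : ℝ) < 1 + ε by linarith))
    have c4 := c2.eventually (lt_mem_nhds (show 1 - ε < (1 : ℝ) by linarith))
    obtain ⟨h, h1, h2, h3⟩ := (c3.and (c4.and self_mem_nhdsWithin)).exists
    exact ⟨h, h3, h1, h2⟩
  obtain ⟨l, hl, hl1, hl2, hJ⟩ : ∃ l : ℝ, 0 < l ∧ Real.exp (2 * h) * I0 / J l h < 1 + ε ∧
      1 - ε < (I0 - C * (I0 - J l h)) / (Real.exp (2 * h) * J l h) ∧ 0 < J l h := by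
    have c0 := tendsto_J hh
    have c1 : Tendsto (fun l => Real.exp (2 * h) * I0 / J l h) atTop
        (𝓝 (Real.exp (2 * h) * I0 / I0)) := tendsto_const_nhds.div c0 hI.ne'
    rw [mul_div_assoc, div_self hI.ne', mul_one] at c1
    have c2 : Tendsto (fun l => (I0 - C * (I0 - J l h)) / (Real.exp (2 * h) * J l h)) atTop
        (𝓝 ((I0 - C * (I0 - I0)) / (Real.exp (2 * h) * I0))) := by
      refine Tendsto.div ?_ (tendsto_const_nhds.mul c0)
        (mul_pos (Real.exp_pos _) hI).ne'
      exact tendsto_const_nhds.sub (tendsto_const_nhds.mul (tendsto_const_nhds.sub c0))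
    have e : (I0 - C * (I0 - I0)) / (Real.exp (2 * h) * I0) = Real.exp (-(2 * h)) := by
      rw [Real.exp_neg]
      field_simp
      ring
    rw [e] at c2
    obtain ⟨l, h1, h2, h3, h4⟩ := ((c1.eventually (gt_mem_nhds hh1)).and
      ((c2.eventually (lt_mem_nhds hh2)).and ((eventually_gt_atTop 0).and
        (c0.eventually (lt_mem_nhds hI))))).exists
    exact ⟨l, h3, h1, h2, h4⟩
  have hP' := hP l hl
  have s1 : Tendsto (fun y : ℝ => ∫ u in Ioi (0 : ℝ), B u * Kl l (y + h - u)) atTop (𝓝 I0) :=
    hP'.comp (tendsto_atTop_add_const_right _ h tendsto_id)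
  have s2 : Tendsto (fun y : ℝ => ∫ u in Ioi (0 : ℝ), B u * Kl l (y - h - u)) atTop (𝓝 I0) := by
    have := hP'.comp (tendsto_atTop_add_const_right _ (-h) tendsto_id)
    exact this
  have s3 : Tendsto (fun y : ℝ => Real.exp (2 * h) *
      (∫ u in Ioi (0 : ℝ), B u * Kl l (y + h - u)) / J l h) atTop
      (𝓝 (Real.exp (2 * h) * I0 / J l h)) := (tendsto_const_nhds.mul s1).div_const _
  have s4 : Tendsto (fun y : ℝ => ((∫ u in Ioi (0 : ℝ), B u * Kl l (y - h - u)) -
      C * (I0 - J l h)) / (Real.exp (2 * h) * J l h)) atTop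
      (𝓝 ((I0 - C * (I0 - J l h)) / (Real.exp (2 * h) * J l h))) :=
    (s2.sub_const _).div_const _
  obtain ⟨N, hN⟩ := eventually_atTop.1 ((s3.eventually (gt_mem_nhds hl1)).and
    ((s4.eventually (lt_mem_nhds hl2)).and (eventually_gt_atTop 0)))
  refine ⟨N, fun y hy => ?_⟩
  obtain ⟨g1, g2, g3⟩ := hN y hy
  have u1 := hup l hl h hh y g3
  have u2 := hlow l hl h hh y
  have hexp := Real.exp_pos (2 * h)
  have k1 : B y ≤ Real.exp (2 * h) * (∫ u in Ioi (0 : ℝ), B u * Kl l (y + h - u)) / J l h := by
    rw [le_div_iff₀ hJ]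
    have : B y * J l h = Real.exp (2 * h) * (B y * Real.exp (-(2 * h)) * J l h) := by
      rw [Real.exp_neg]
      field_simp
    rw [this]
    exact mul_le_mul_of_nonneg_left u1 hexp.le
  have k2 : ((∫ u in Ioi (0 : ℝ), B u * Kl l (y - h - u)) - C * (I0 - J l h)) /
      (Real.exp (2 * h) * J l h) ≤ B y := by
    rw [div_le_iff₀ (mul_pos hexp hJ)]
    linarith
  rw [Real.dist_eq, abs_lt]
  constructor
  · linarith
  · linarith

end Pool.Agent.PNT
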